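import Pool.Agent.KS6_13.RC.NonReg

/-!
# Non-regular rep-cubes of every order `k ≥ 160`
-/

set_option autoImplicit false

namespace Pool.Agent.Results.MP_ea7ca7_co.NonRegular

open Pool.Agent.Helper697.Rep Pool.Agent.KS6_13.RC

theorem result :
    (∀ k : ℕ, 160 ≤ k → ∃ P : Finset (ℤ × ℤ), IsNonRegular k P) ∧
    (∀ n : ℕ, 3 ≤ n → ∃ P : Finset (ℤ × ℤ), P.card = 216 * n ^ 2 ∧
      ∀ k : ℕ, 18 * n ^ 2 ≤ k → k + 73 ≤ 36 * n ^ 2 → IsNonRegular k P) ∧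
    (∀ (k : ℕ) (P : Finset (ℤ × ℤ)), IsNonRegular k P → IsRepCube k P) :=
  ⟨nonRegular160, simultaneous, fun _ _ ⟨h1, h2, Q, q1, q2, q3, q4, _⟩ =>
    ⟨h1, h2, Q, q1, q2, q3, q4⟩⟩

end Pool.Agent.Results.MP_ea7ca7_co.NonRegular
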